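import Mathlib

set_option autoImplicit false

namespace Pool.Agent.Results.MP_1e9bc5_co.LowerElevenFifths

open Finset

/-- `IsDecomposition n k A B C D`: the `k` products `E(K_{A_i,B_i}) × E(K_{C_i,D_i})` partition
`E(K_4) × E(K_n)`. -/
def IsDecomposition (n k : ℕ) (A B : Fin k → Finset (Fin 4)) (C D : Fin k → Finset (Fin n)) : Prop :=
  (∀ i : Fin k, Disjoint (A i) (B i) ∧ Disjoint (C i) (D i)) ∧
    ∀ x y : Fin 4, ∀ u v : Fin n, x ≠ y → u ≠ v →
      ∃! i : Fin k,
        ((x ∈ A i ∧ y ∈ B i) ∨ (y ∈ A i ∧ x ∈ B i)) ∧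
        ((u ∈ C i ∧ v ∈ D i) ∨ (v ∈ C i ∧ u ∈ D i))

/-- `h n`: the least number of products of complete bipartite graphs partitioning
`E(K_4) × E(K_n)`. -/
noncomputable def h (n : ℕ) : ℕ :=
  sInf {k : ℕ | ∃ (A B : Fin k → Finset (Fin 4)) (C D : Fin k → Finset (Fin n)),
    IsDecomposition n k A B C D}

section ident

variable {V : Type} [Fintype V] [DecidableEq V]

/-- indicator of an ordered pair being an edge of the biclique -/
def ind (A B : Finset V) (x y : V) : ℝ :=
  (if x ∈ A then 1 else 0) * (if y ∈ B then 1 else 0)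
    + (if y ∈ A then 1 else 0) * (if x ∈ B then 1 else 0)

lemma ind_diag (A B : Finset V) (hd : Disjoint A B) (x : V) : ind A B x x = 0 := by
  unfold ind
  by_cases hA : x ∈ A
  · have hB : x ∉ B := fun hB => (Finset.disjoint_left.mp hd) hA hB
    simp [hA, hB]
  · simp [hA]

lemma ind_eq (A B : Finset V) (hd : Disjoint A B) (x y : V) :
    ind A B x y = if ((x ∈ A ∧ y ∈ B) ∨ (y ∈ A ∧ x ∈ B)) then 1 else 0 := by
  unfold ind
  have h1 : ∀ z, z ∈ A → z ∉ B := fun z hz hz' => (Finset.disjoint_left.mp hd) hz hz'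
  by_cases hxA : x ∈ A <;> by_cases hyA : y ∈ A <;> by_cases hxB : x ∈ B <;> by_cases hyB : y ∈ B <;>
    simp_all

lemma sum_ind (A B : Finset V) (f : V → ℝ) :
    ∑ x, ∑ y, f x * f y * ind A B x y = 2 * ((∑ x ∈ A, f x) * (∑ y ∈ B, f y)) := by
  have hA : ∑ x ∈ A, f x = ∑ x, f x * (if x ∈ A then 1 else 0) := by
    simp
  have hB : ∑ x ∈ B, f x = ∑ x, f x * (if x ∈ B then 1 else 0) := by
    simp
  have e1 : ∑ x, ∑ y, f x * f y * ((if x ∈ A then (1:ℝ) else 0) * (if y ∈ B then 1 else 0))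
      = (∑ x ∈ A, f x) * (∑ y ∈ B, f y) := by
    rw [hA, hB, Finset.sum_mul_sum]
    refine Finset.sum_congr rfl fun x _ => Finset.sum_congr rfl fun y _ => ?_
    ring
  have e2 : ∑ x, ∑ y, f x * f y * ((if y ∈ A then (1:ℝ) else 0) * (if x ∈ B then 1 else 0))
      = (∑ x ∈ A, f x) * (∑ y ∈ B, f y) := by
    rw [hA, hB, Finset.sum_mul_sum, Finset.sum_comm]
    refine Finset.sum_congr rfl fun x _ => Finset.sum_congr rfl fun y _ => ?_
    ring
  have : ∑ x, ∑ y, f x * f y * ind A B x y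
      = ∑ x, ∑ y, f x * f y * ((if x ∈ A then (1:ℝ) else 0) * (if y ∈ B then 1 else 0))
      + ∑ x, ∑ y, f x * f y * ((if y ∈ A then (1:ℝ) else 0) * (if x ∈ B then 1 else 0)) := by
    rw [← Finset.sum_add_distrib]
    refine Finset.sum_congr rfl fun x _ => ?_
    rw [← Finset.sum_add_distrib]
    refine Finset.sum_congr rfl fun y _ => ?_
    unfold ind
    ring
  rw [this, e1, e2]; ring

lemma sum_offdiag (f : V → ℝ) :
    ∑ x, ∑ y, (if x ≠ y then f x * f y else 0) = (∑ x, f x) ^ 2 - ∑ x, (f x) ^ 2 := by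
  have : ∀ x, ∑ y, (if x ≠ y then f x * f y else 0) = f x * (∑ y, f y) - (f x) ^ 2 := by
    intro x
    have h1 : ∀ y, (if x ≠ y then f x * f y else 0) = f x * f y - (if x = y then f x * f y else 0) := by
      intro y
      by_cases hxy : x = y <;> simp [hxy]
    rw [Finset.sum_congr rfl (fun y _ => h1 y), Finset.sum_sub_distrib, ← Finset.mul_sum]
    simp
    ring
  rw [Finset.sum_congr rfl (fun x _ => this x), Finset.sum_sub_distrib, ← Finset.sum_mul]
  ring

end ident

/-- The main polynomial identity. -/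
lemma main_identity (n k : ℕ) (A B : Fin k → Finset (Fin 4)) (C D : Fin k → Finset (Fin n))
    (hdec : IsDecomposition n k A B C D) (f : Fin 4 → ℝ) (g : Fin n → ℝ) :
    ((∑ x, f x) ^ 2 - ∑ x, (f x) ^ 2) * ((∑ u, g u) ^ 2 - ∑ u, (g u) ^ 2)
      = 4 * ∑ i, ((∑ x ∈ A i, f x) * (∑ x ∈ B i, f x)) * ((∑ u ∈ C i, g u) * (∑ u ∈ D i, g u)) := by
  obtain ⟨hdisj, huniq⟩ := hdec
  have hcover : ∀ x y u v, (if x ≠ y then f x * f y else 0) * (if u ≠ v then g u * g v else 0)
      = ∑ i, (f x * f y * ind (A i) (B i) x y) * (g u * g v * ind (C i) (D i) u v) := by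
    intro x y u v
    by_cases hxy : x = y
    · subst hxy
      simp only [ne_eq, not_true_eq_false, if_false, zero_mul]
      rw [Finset.sum_eq_zero]
      intro i _
      rw [ind_diag _ _ (hdisj i).1]; ring
    by_cases huv : u = v
    · subst huv
      simp only [ne_eq, not_true_eq_false, if_false, mul_zero]
      rw [Finset.sum_eq_zero]
      intro i _
      rw [ind_diag _ _ (hdisj i).2]; ring
    obtain ⟨i, hi, hu⟩ := huniq x y u v hxy huv
    rw [if_pos hxy, if_pos huv, Finset.sum_eq_single i]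
    · rw [ind_eq _ _ (hdisj i).1, ind_eq _ _ (hdisj i).2, if_pos hi.1, if_pos hi.2]; ring
    · intro j _ hj
      by_contra hne
      apply hj
      apply hu
      constructor
      · by_contra hc
        apply hne
        rw [ind_eq _ _ (hdisj j).1, if_neg hc]; ring
      · by_contra hc
        apply hne
        rw [ind_eq _ _ (hdisj j).2, if_neg hc]; ring
    · intro hc; exact absurd (Finset.mem_univ i) hc
  have h1 : ((∑ x, f x) ^ 2 - ∑ x, (f x) ^ 2) * ((∑ u, g u) ^ 2 - ∑ u, (g u) ^ 2)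
      = ∑ x, ∑ y, ∑ u, ∑ v, (if x ≠ y then f x * f y else 0) * (if u ≠ v then g u * g v else 0) := by
    rw [← sum_offdiag f, ← sum_offdiag g, Finset.sum_mul]
    refine Finset.sum_congr rfl fun x _ => ?_
    rw [Finset.sum_mul]
    refine Finset.sum_congr rfl fun y _ => ?_
    rw [Finset.mul_sum]
    refine Finset.sum_congr rfl fun u _ => ?_
    rw [Finset.mul_sum]
  rw [h1]
  have h2 : ∑ x, ∑ y, ∑ u, ∑ v, (if x ≠ y then f x * f y else 0) * (if u ≠ v then g u * g v else 0)
      = ∑ i, (∑ x, ∑ y, f x * f y * ind (A i) (B i) x y)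
          * (∑ u, ∑ v, g u * g v * ind (C i) (D i) u v) := by
    calc _ = ∑ x, ∑ y, ∑ u, ∑ v, ∑ i,
          (f x * f y * ind (A i) (B i) x y) * (g u * g v * ind (C i) (D i) u v) :=
          Finset.sum_congr rfl fun x _ => Finset.sum_congr rfl fun y _ =>
            Finset.sum_congr rfl fun u _ => Finset.sum_congr rfl fun v _ => hcover x y u v
      _ = ∑ i, ∑ x, ∑ y, ∑ u, ∑ v,
          (f x * f y * ind (A i) (B i) x y) * (g u * g v * ind (C i) (D i) u v) := by
          simp only [Finset.sum_comm (s := (Finset.univ : Finset (Fin n)))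
            (t := (Finset.univ : Finset (Fin k)))]
          simp only [Finset.sum_comm (s := (Finset.univ : Finset (Fin 4)))
            (t := (Finset.univ : Finset (Fin k)))]
      _ = _ := by
          refine Finset.sum_congr rfl fun i _ => ?_
          rw [Finset.sum_mul]
          refine Finset.sum_congr rfl fun x _ => ?_
          rw [Finset.sum_mul]
          refine Finset.sum_congr rfl fun y _ => ?_
          rw [Finset.mul_sum]
          refine Finset.sum_congr rfl fun u _ => ?_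
          rw [Finset.mul_sum]
  rw [h2, Finset.mul_sum]
  refine Finset.sum_congr rfl fun i _ => ?_
  rw [sum_ind, sum_ind]
  ring

/-- Weighted Graham-Pollak: if `e_2(ξ) ≠ 0` then at least `n - 1` products have
`A_i(ξ) B_i(ξ) ≠ 0`. -/
lemma rank_bound (n k : ℕ) (A B : Fin k → Finset (Fin 4)) (C D : Fin k → Finset (Fin n))
    (hdec : IsDecomposition n k A B C D) (f : Fin 4 → ℝ)
    (hf : (∑ x, f x) ^ 2 - ∑ x, (f x) ^ 2 ≠ 0) :
    n ≤ 1 + (Finset.univ.filter
      (fun i => (∑ x ∈ A i, f x) * (∑ x ∈ B i, f x) ≠ 0)).card := by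
  classical
  set S := Finset.univ.filter (fun i => (∑ x ∈ A i, f x) * (∑ x ∈ B i, f x) ≠ 0) with hS
  by_contra hcon
  push Not at hcon
  -- linear map g ↦ (∑ g, (C_i(g))_{i ∈ S})
  let L : (Fin n → ℝ) →ₗ[ℝ] (Option S → ℝ) :=
    { toFun := fun g o => match o with
        | none => ∑ u, g u
        | some i => ∑ u ∈ C i.1, g u
      map_add' := by
        intro g g'
        ext o
        cases o <;> simp [Finset.sum_add_distrib]
      map_smul' := by
        intro c g
        ext o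
        cases o <;> simp [Finset.mul_sum] }
  have hker : L.ker ≠ ⊥ := by
    apply LinearMap.ker_ne_bot_of_finrank_lt
    simp only [Module.finrank_fintype_fun_eq_card, Fintype.card_fin, Fintype.card_option,
      Fintype.card_coe]
    omega
  obtain ⟨g, hg, hg0⟩ := (Submodule.ne_bot_iff _).mp hker
  rw [LinearMap.mem_ker] at hg
  have hsum : ∑ u, g u = 0 := congrFun hg none
  have hC : ∀ i ∈ S, ∑ u ∈ C i, g u = 0 := fun i hi => congrFun hg (some ⟨i, hi⟩)
  have hid := main_identity n k A B C D hdec f g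
  have hzero : ∑ i, ((∑ x ∈ A i, f x) * (∑ x ∈ B i, f x)) * ((∑ u ∈ C i, g u) * (∑ u ∈ D i, g u))
      = 0 := by
    apply Finset.sum_eq_zero
    intro i _
    by_cases hi : i ∈ S
    · rw [hC i hi]; ring
    · have : (∑ x ∈ A i, f x) * (∑ x ∈ B i, f x) = 0 := by
        by_contra hne
        exact hi (by rw [hS, Finset.mem_filter]; exact ⟨Finset.mem_univ _, hne⟩)
      rw [this]; ring
  rw [hzero, hsum, mul_zero] at hid
  have h2 : ∑ u, (g u) ^ 2 = 0 := by
    rcases mul_eq_zero.mp hid with h | h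
    · exact absurd h hf
    · linarith
  apply hg0
  ext u
  have := (Finset.sum_eq_zero_iff_of_nonneg (fun u _ => sq_nonneg (g u))).mp h2 u (Finset.mem_univ u)
  simpa using this

/-- value of a test on the `A, B` pair -/
def val (A B : Finset (Fin 4)) (t : (Fin 4 → ℤ) × ℕ) : ℕ :=
  if (∑ x ∈ A, t.1 x) * (∑ x ∈ B, t.1 x) ≠ 0 then t.2 else 0

/-- the 21 test vectors, with weights -/
def tests : List ((Fin 4 → ℤ) × ℕ) :=
  [(![1, 1, 0, 0], 6), (![1, 0, 1, 0], 6), (![1, 0, 0, 1], 6), (![0, 1, 1, 0], 6),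
   (![0, 1, 0, 1], 6), (![0, 0, 1, 1], 6),
   (![0, -1, 1, 1], 4), (![0, 1, -1, 1], 4), (![0, 1, 1, -1], 4),
   (![-1, 0, 1, 1], 4), (![1, 0, -1, 1], 4), (![1, 0, 1, -1], 4),
   (![-1, 1, 0, 1], 4), (![1, -1, 0, 1], 4), (![1, 1, 0, -1], 4),
   (![-1, 1, 1, 0], 4), (![1, -1, 1, 0], 4), (![1, 1, -1, 0], 4),
   (![1, 1, -1, -1], 5), (![1, -1, 1, -1], 5), (![1, -1, -1, 1], 5)]

/-- Every biclique of `K_4` is nonzero on tests of total weight at most 45 (out of 99). -/
lemma tests_bound : ∀ A B : Finset (Fin 4), Disjoint A B →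
    (tests.map (fun t => val A B t)).sum ≤ 45 := by
  decide +kernel

lemma tests_ne : ∀ t ∈ tests, (∑ x, t.1 x) ^ 2 - ∑ x, (t.1 x) ^ 2 ≠ 0 := by
  decide +kernel

lemma sum_swap {α : Type} (k : ℕ) (F : α → Fin k → ℕ) (l : List α) :
    (l.map (fun t => ∑ i : Fin k, F t i)).sum = ∑ i : Fin k, (l.map (fun t => F t i)).sum := by
  induction l with
  | nil => simp
  | cons a l ih =>
    rw [List.map_cons, List.sum_cons, ih, ← Finset.sum_add_distrib]
    refine Finset.sum_congr rfl fun i _ => ?_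
    rw [List.map_cons, List.sum_cons]

lemma tests_weight (m : ℕ) : (tests.map (fun t => t.2 * m)).sum = 99 * m := by
  have h1 : ∀ l : List ((Fin 4 → ℤ) × ℕ),
      (l.map (fun t => t.2 * m)).sum = (l.map (fun t => t.2)).sum * m := by
    intro l
    induction l with
    | nil => simp
    | cons a l ih => rw [List.map_cons, List.sum_cons, List.map_cons, List.sum_cons, ih]; ring
  have h2 : (tests.map (fun t => t.2)).sum = 99 := by decide +kernel
  rw [h1, h2]

lemma test_card (n k : ℕ) (A B : Fin k → Finset (Fin 4)) (C D : Fin k → Finset (Fin n))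
    (hdec : IsDecomposition n k A B C D) (t : (Fin 4 → ℤ) × ℕ)
    (hne : (∑ x, t.1 x) ^ 2 - ∑ x, (t.1 x) ^ 2 ≠ 0) :
    t.2 * (n - 1) ≤ ∑ i : Fin k, val (A i) (B i) t := by
  classical
  have hne' : (∑ x, ((t.1 x : ℤ) : ℝ)) ^ 2 - ∑ x, (((t.1 x : ℤ) : ℝ)) ^ 2 ≠ 0 := by
    exact_mod_cast hne
  have h0 := rank_bound n k A B C D hdec (fun x => ((t.1 x : ℤ) : ℝ)) hne'
  have heq : (Finset.univ.filter (fun i => (∑ x ∈ A i, ((t.1 x : ℤ) : ℝ)) *
      (∑ x ∈ B i, ((t.1 x : ℤ) : ℝ)) ≠ 0))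
      = (Finset.univ.filter (fun i => (∑ x ∈ A i, t.1 x) * (∑ x ∈ B i, t.1 x) ≠ 0)) := by
    ext i
    rw [Finset.mem_filter, Finset.mem_filter]
    refine and_congr_right fun _ => ?_
    constructor
    · intro h hc; apply h; exact_mod_cast hc
    · intro h hc; apply h; exact_mod_cast hc
  rw [heq] at h0
  have h1 : n - 1 ≤
      (Finset.univ.filter (fun i => (∑ x ∈ A i, t.1 x) * (∑ x ∈ B i, t.1 x) ≠ 0)).card := by
    omega
  have h2 : ∑ i : Fin k, val (A i) (B i) t
      = (Finset.univ.filter (fun i => (∑ x ∈ A i, t.1 x) * (∑ x ∈ B i, t.1 x) ≠ 0)).card * t.2 := by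
    unfold val
    rw [← Finset.sum_filter, Finset.sum_const, smul_eq_mul]
  rw [h2, mul_comm]
  exact Nat.mul_le_mul_right _ h1

lemma lower_bound (n k : ℕ) (A B : Fin k → Finset (Fin 4)) (C D : Fin k → Finset (Fin n))
    (hdec : IsDecomposition n k A B C D) : 11 * (n - 1) ≤ 5 * k := by
  have h2 : (tests.map (fun t => t.2 * (n - 1))).sum
      ≤ (tests.map (fun t => ∑ i : Fin k, val (A i) (B i) t)).sum := by
    apply List.sum_le_sum
    intro t ht
    exact test_card n k A B C D hdec t (tests_ne t ht)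
  rw [tests_weight, sum_swap] at h2
  have h4 : ∑ i : Fin k, (tests.map (fun t => val (A i) (B i) t)).sum ≤ ∑ i : Fin k, 45 :=
    Finset.sum_le_sum fun i _ => tests_bound (A i) (B i) (hdec.1 i).1
  rw [Finset.sum_const, Finset.card_univ, Fintype.card_fin, smul_eq_mul] at h4
  omega

/-- Some decomposition exists: all products of single edges. -/
lemma exists_decomposition (n : ℕ) :
    ∃ k, ∃ (A B : Fin k → Finset (Fin 4)) (C D : Fin k → Finset (Fin n)),
      IsDecomposition n k A B C D := by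
  classical
  -- index set: pairs (x<y, u<v)
  let T := {q : (Fin 4 × Fin 4) × (Fin n × Fin n) // q.1.1 < q.1.2 ∧ q.2.1 < q.2.2}
  let e : T ≃ Fin (Fintype.card T) := Fintype.equivFin T
  refine ⟨Fintype.card T, fun i => {(e.symm i).1.1.1}, fun i => {(e.symm i).1.1.2},
    fun i => {(e.symm i).1.2.1}, fun i => {(e.symm i).1.2.2}, ?_, ?_⟩
  · intro i
    refine ⟨?_, ?_⟩
    · rw [Finset.disjoint_singleton]
      exact ne_of_lt (e.symm i).2.1
    · rw [Finset.disjoint_singleton]
      exact ne_of_lt (e.symm i).2.2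
  · intro x y u v hxy huv
    have hx : min x y < max x y := min_lt_max.mpr hxy
    have hu : min u v < max u v := min_lt_max.mpr huv
    refine ⟨e ⟨((min x y, max x y), (min u v, max u v)), hx, hu⟩, ?_, ?_⟩
    · simp only [Equiv.symm_apply_apply, Finset.mem_singleton]
      constructor
      · rcases lt_or_gt_of_ne hxy with h | h
        · left; rw [min_eq_left h.le, max_eq_right h.le]; exact ⟨rfl, rfl⟩
        · right; rw [min_eq_right h.le, max_eq_left h.le]; exact ⟨rfl, rfl⟩
      · rcases lt_or_gt_of_ne huv with h | h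
        · left; rw [min_eq_left h.le, max_eq_right h.le]; exact ⟨rfl, rfl⟩
        · right; rw [min_eq_right h.le, max_eq_left h.le]; exact ⟨rfl, rfl⟩
    · intro j hj
      rw [← Equiv.symm_apply_eq]
      simp only [Finset.mem_singleton] at hj
      obtain ⟨hj1, hj2⟩ := hj
      set q := e.symm j with hq
      obtain ⟨⟨⟨a, b⟩, ⟨c, d⟩⟩, hab, hcd⟩ := q
      simp only at hj1 hj2 hab hcd
      apply Subtype.ext
      simp only [Prod.mk.injEq]
      refine ⟨?_, ?_⟩
      · rcases hj1 with ⟨rfl, rfl⟩ | ⟨rfl, rfl⟩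
        · exact ⟨(min_eq_left hab.le).symm, (max_eq_right hab.le).symm⟩
        · exact ⟨(min_eq_right hab.le).symm, (max_eq_left hab.le).symm⟩
      · rcases hj2 with ⟨rfl, rfl⟩ | ⟨rfl, rfl⟩
        · exact ⟨(min_eq_left hcd.le).symm, (max_eq_right hcd.le).symm⟩
        · exact ⟨(min_eq_right hcd.le).symm, (max_eq_left hcd.le).symm⟩

/-- `h(n) ≥ (11/5)(n-1)` for every `n`. -/
theorem result (n : ℕ) : 11 * (n - 1) ≤ 5 * h n := by
  have hne : {k : ℕ | ∃ (A B : Fin k → Finset (Fin 4)) (C D : Fin k → Finset (Fin n)),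
      IsDecomposition n k A B C D}.Nonempty := exists_decomposition n
  obtain ⟨A, B, C, D, hd⟩ := Nat.sInf_mem hne
  exact lower_bound n _ A B C D hd

end Pool.Agent.Results.MP_1e9bc5_co.LowerElevenFifths
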