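import Mathlib
import Pool.Agent.H54.N19Fin

set_option autoImplicit false

namespace Pool.Agent.Results.MP_1e9bc5_co.UpperBound

/-- The least number of products of bicliques partitioning `E(K_4) × E(K_n)`; the set is literally the
one used in the frozen statement `S07543`. -/
noncomputable def h (n : ℕ) : ℕ :=
  sInf {k : ℕ | ∃ (A B : Fin k → Finset (Fin 4)) (C D : Fin k → Finset (Fin n)),
            (∀ i : Fin k, Disjoint (A i) (B i) ∧ Disjoint (C i) (D i)) ∧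
            ∀ x y : Fin 4, ∀ u v : Fin n, x ≠ y → u ≠ v →
              ∃! i : Fin k,
                ((x ∈ A i ∧ y ∈ B i) ∨ (y ∈ A i ∧ x ∈ B i)) ∧
                ((u ∈ C i ∧ v ∈ D i) ∨ (v ∈ C i ∧ u ∈ D i))}

theorem h_le (k n : ℕ) (hn : n ≤ 8 * k ^ 5) : h n ≤ 19 * k ^ 5 + 240 * k ^ 4 :=
  Nat.sInf_le (Pool.Agent.H54.N19.good_19 k n hn)

theorem result :
    (∀ k n : ℕ, n ≤ 8 * k ^ 5 → h n ≤ 19 * k ^ 5 + 240 * k ^ 4) ∧
      ∀ ε : ℝ, 0 < ε → ∀ᶠ n : ℕ in Filter.atTop, (h n : ℝ) ≤ (19 / 8 + ε) * n := by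
  refine ⟨h_le, ?_⟩
  intro ε hε
  obtain ⟨M, hM⟩ := exists_nat_gt (4429 / (8 * ε))
  filter_upwards [Filter.eventually_gt_atTop (8 * (M + 1) ^ 5)] with n hn
  have hex : ∃ k : ℕ, n ≤ 8 * k ^ 5 := by
    refine ⟨n, ?_⟩
    calc n ≤ n ^ 5 := Nat.le_self_pow (by norm_num) _
      _ ≤ 8 * n ^ 5 := Nat.le_mul_of_pos_left _ (by norm_num)
  classical
  set k := Nat.find hex with hk
  have hk1 : n ≤ 8 * k ^ 5 := Nat.find_spec hex
  have hkM : M + 1 < k := by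
    by_contra hcon
    push Not at hcon
    have : 8 * k ^ 5 ≤ 8 * (M + 1) ^ 5 := Nat.mul_le_mul_left _ (Nat.pow_le_pow_left hcon 5)
    omega
  obtain ⟨m, hm⟩ : ∃ m, k = m + 1 := ⟨k - 1, by omega⟩
  have hmM : M < m := by omega
  have hk2 : 8 * m ^ 5 < n := by
    by_contra hcon
    push Not at hcon
    have := Nat.find_min' hex hcon
    omega
  have h1 : (h n : ℝ) ≤ 19 * ((m : ℝ) + 1) ^ 5 + 240 * ((m : ℝ) + 1) ^ 4 := by
    have := h_le k n hk1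
    rw [hm] at this
    exact_mod_cast this
  have hm1 : (1 : ℝ) ≤ m := by
    have : 1 ≤ m := by omega
    exact_mod_cast this
  have h2 : (8 : ℝ) * (m : ℝ) ^ 5 ≤ n := by exact_mod_cast hk2.le
  have h3 : (4429 : ℝ) ≤ 8 * ε * m := by
    have : (4429 / (8 * ε) : ℝ) ≤ m := hM.le.trans (by exact_mod_cast hmM.le)
    rw [div_le_iff₀ (by positivity)] at this
    linarith
  have hp4 : (0 : ℝ) ≤ (m : ℝ) ^ 4 := by positivity
  have e1 : ((m : ℝ)) ^ 3 ≤ (m : ℝ) ^ 4 := pow_le_pow_right₀ hm1 (by norm_num)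
  have e2 : ((m : ℝ)) ^ 2 ≤ (m : ℝ) ^ 4 := pow_le_pow_right₀ hm1 (by norm_num)
  have e3 : ((m : ℝ)) ≤ (m : ℝ) ^ 4 := by
    simpa using pow_le_pow_right₀ hm1 (show 1 ≤ 4 by norm_num)
  have e4 : (1 : ℝ) ≤ (m : ℝ) ^ 4 := one_le_pow₀ hm1
  have h4 : 19 * ((m : ℝ) + 1) ^ 5 + 240 * ((m : ℝ) + 1) ^ 4 ≤ 19 * (m : ℝ) ^ 5 + 4429 * (m : ℝ) ^ 4 := by
    nlinarith
  have h5 : (4429 : ℝ) * (m : ℝ) ^ 4 ≤ ε * (8 * (m : ℝ) ^ 5) := by
    calc (4429 : ℝ) * (m : ℝ) ^ 4 ≤ (8 * ε * m) * (m : ℝ) ^ 4 := mul_le_mul_of_nonneg_right h3 hp4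
      _ = ε * (8 * (m : ℝ) ^ 5) := by ring
  have h6 : ε * (8 * (m : ℝ) ^ 5) ≤ ε * n := mul_le_mul_of_nonneg_left h2 hε.le
  nlinarith

end Pool.Agent.Results.MP_1e9bc5_co.UpperBound
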